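import Mathlib

/-!
# The Gallai-Milgram theorem

Every finite digraph whose independent sets have at most `a` elements can be covered by at most
`a` vertex-disjoint directed paths.
-/

namespace Pool.Agent.GallaiMilgram

variable {V : Type*} {D : V → V → Prop}

/-- `L` is a cover of `W` by disjoint nonempty reversed directed paths (the head is the last
vertex of the path). -/
def Cov (D : V → V → Prop) (W : Finset V) (L : List (List V)) : Prop :=
  (∀ p ∈ L, p ≠ [] ∧ List.IsChain (fun a b => D b a) p) ∧ L.flatten.Nodup ∧
    ∀ v, v ∈ L.flatten ↔ v ∈ W

/-- The set of last vertices. -/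
def ter (L : List (List V)) : Set V := {x | ∃ q, (x :: q) ∈ L}

theorem Cov.perm {W : Finset V} {L L' : List (List V)} (h : Cov D W L) (e : L.Perm L') :
    Cov D W L' := by
  obtain ⟨h1, h2, h3⟩ := h
  refine ⟨fun p hp => h1 p (e.mem_iff.2 hp), (e.flatten.nodup_iff).1 h2, fun v => ?_⟩
  rw [← h3 v]
  exact (e.flatten.mem_iff).symm

theorem ter_perm {L L' : List (List V)} (e : L.Perm L') : ter L = ter L' := by
  ext x
  constructor
  · rintro ⟨q, hq⟩
    exact ⟨q, e.mem_iff.1 hq⟩
  · rintro ⟨q, hq⟩
    exact ⟨q, e.mem_iff.2 hq⟩

theorem ter_cons (x : V) (q : List V) (L : List (List V)) :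
    ter ((x :: q) :: L) = insert x (ter L) := by
  ext y
  constructor
  · rintro ⟨r, hr⟩
    rcases List.mem_cons.1 hr with h | h
    · left
      exact (List.cons.inj h).1
    · exact Or.inr ⟨r, h⟩
  · rintro (h | ⟨r, hr⟩)
    · exact ⟨q, by rw [h]; exact List.mem_cons_self⟩
    · exact ⟨r, List.mem_cons_of_mem _ hr⟩

theorem mem_flatten_of_ter {L : List (List V)} {x : V} (h : x ∈ ter L) : x ∈ L.flatten := by
  obtain ⟨q, hq⟩ := h
  exact List.mem_flatten.2 ⟨_, hq, List.mem_cons_self⟩

theorem exists_perm_of_mem_ter {L : List (List V)} {x : V} (h : x ∈ ter L) :
    ∃ q L', L.Perm ((x :: q) :: L') := by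
  classical
  obtain ⟨q, hq⟩ := h
  exact ⟨q, L.erase (x :: q), List.perm_cons_erase hq⟩

theorem key (n : ℕ) : ∀ (W : Finset V) (L : List (List V)), W.card = n → Cov D W L →
    (∀ L', Cov D W L' → ter L' ⊆ ter L → ter L ⊆ ter L') →
    ∃ s : Finset V, (∀ x ∈ s, ∀ y ∈ s, x ≠ y → ¬ D x y) ∧ ∀ p ∈ L, ∃ x ∈ s, x ∈ p := by
  classical
  induction n with
  | zero =>
    intro W L hW hL hmin
    refine ⟨∅, by simp, ?_⟩
    intro p hp
    exfalso
    obtain ⟨h1, h2, h3⟩ := hL
    obtain ⟨hne, -⟩ := h1 p hp
    obtain ⟨x, hx⟩ := List.exists_mem_of_ne_nil p hne
    have : x ∈ W := (h3 x).1 (List.mem_flatten.2 ⟨p, hp, hx⟩)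
    rw [Finset.card_eq_zero] at hW
    simp [hW] at this
  | succ n ih =>
    intro W L hW hL hmin
    by_cases hind : ∀ x ∈ ter L, ∀ y ∈ ter L, x ≠ y → ¬ D x y
    · refine ⟨L.flatten.toFinset.filter (fun x => x ∈ ter L), ?_, ?_⟩
      · intro x hx y hy hxy
        exact hind x (Finset.mem_filter.1 hx).2 y (Finset.mem_filter.1 hy).2 hxy
      · intro p hp
        obtain ⟨hne, -⟩ := hL.1 p hp
        obtain ⟨x, q, rfl⟩ := List.exists_cons_of_ne_nil hne
        have hx : x ∈ ter L := ⟨q, hp⟩
        exact ⟨x, Finset.mem_filter.2 ⟨List.mem_toFinset.2 (mem_flatten_of_ter hx), hx⟩,
          List.mem_cons_self⟩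
    · push Not at hind
      obtain ⟨x, hx, y, hy, hxy, hD⟩ := hind
      obtain ⟨q1, L1, e1⟩ := exists_perm_of_mem_ter hy
      have hx1 : x ∈ ter L1 := by
        rw [ter_perm e1, ter_cons] at hx
        rcases hx with h | h
        · exact absurd h hxy
        · exact h
      obtain ⟨q2, L0, e2⟩ := exists_perm_of_mem_ter hx1
      have e : L.Perm ((y :: q1) :: (x :: q2) :: L0) := e1.trans (e2.cons _)
      have hC := hL.perm e
      have hter : ter L = insert y (insert x (ter L0)) := by
        rw [ter_perm e, ter_cons, ter_cons]
      suffices h : ∃ s : Finset V, (∀ x ∈ s, ∀ y ∈ s, x ≠ y → ¬ D x y) ∧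
          ∀ p ∈ ((y :: q1) :: (x :: q2) :: L0), ∃ x ∈ s, x ∈ p by
        obtain ⟨s, hs1, hs2⟩ := h
        exact ⟨s, hs1, fun p hp => hs2 p (e.mem_iff.1 hp)⟩
      obtain ⟨c1, c2, c3⟩ := hC
      -- freshness facts
      have hxL0 : x ∉ L0.flatten := by
        intro h
        simp only [List.flatten_cons, List.cons_append, List.nodup_cons] at c2
        have := (List.nodup_append.1 c2.2).2.1
        simp only [List.nodup_cons] at this
        exact this.1 (List.mem_append_right _ h)
      have hyL0 : y ∉ L0.flatten := by
        intro h
        simp only [List.flatten_cons, List.cons_append, List.nodup_cons] at c2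
        exact c2.1 (List.mem_append_right _ (List.mem_cons_of_mem _ (List.mem_append_right _ h)))
      cases q1 with
      | nil =>
        exfalso
        have hM : Cov D W ((y :: x :: q2) :: L0) := by
          refine ⟨?_, ?_, ?_⟩
          · intro p hp
            rcases List.mem_cons.1 hp with h | h
            · rw [h]
              refine ⟨by simp, ?_⟩
              rw [List.isChain_cons_cons]
              exact ⟨hD, (c1 (x :: q2) (by simp)).2⟩
            · exact c1 p (by simp [h])
          · simpa using c2
          · intro v
            rw [← c3 v]
            simp
        have h1 := hmin _ hM (by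
          rw [ter_cons, hter]
          exact Set.insert_subset_insert (Set.subset_insert _ _))
        have h2 := h1 hx
        rw [ter_cons] at h2
        rcases h2 with h | h
        · exact hxy h
        · exact hxL0 (mem_flatten_of_ter h)
      | cons v q1 =>
        have hDv : D v y := by
          have := (c1 (y :: v :: q1) (by simp)).2
          rw [List.isChain_cons_cons] at this
          exact this.1
        have hyW : y ∈ W := (c3 y).1 (by simp)
        have hxW : x ∈ W := (c3 x).1 (by simp)
        have hvW : v ∈ W := (c3 v).1 (by simp)
        have hyrest : y ∉ ((v :: q1) :: (x :: q2) :: L0).flatten := by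
          simp only [List.flatten_cons, List.cons_append, List.nodup_cons] at c2
          simpa only [List.flatten_cons, List.cons_append] using c2.1
        have hC' : Cov D (W.erase y) ((v :: q1) :: (x :: q2) :: L0) := by
          refine ⟨?_, ?_, ?_⟩
          · intro p hp
            rcases List.mem_cons.1 hp with h | h
            · rw [h]
              refine ⟨by simp, ?_⟩
              have := (c1 (y :: v :: q1) (by simp)).2
              rw [List.isChain_cons_cons] at this
              exact this.2
            · exact c1 p (List.mem_cons_of_mem _ h)
          · simp only [List.flatten_cons, List.cons_append, List.nodup_cons] at c2 ⊢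
            exact c2.2
          · intro z
            rw [Finset.mem_erase, ← c3 z]
            constructor
            · intro h
              refine ⟨?_, ?_⟩
              · rintro rfl
                exact hyrest h
              · simp only [List.flatten_cons, List.cons_append, List.mem_cons] at h ⊢
                exact Or.inr h
            · rintro ⟨h1, h2⟩
              simp only [List.flatten_cons, List.cons_append, List.mem_cons] at h2 ⊢
              exact h2.resolve_left h1
        have hcard : (W.erase y).card = n := by
          rw [Finset.card_erase_of_mem hyW, hW]
          rfl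
        obtain ⟨s, hs1, hs2⟩ := ih (W.erase y) _ hcard hC' (by
          intro L'' hL'' hsub
          rw [ter_cons, ter_cons] at hsub ⊢
          have hy'' : y ∉ L''.flatten := by
            intro h
            have := (hL''.2.2 y).1 h
            simp at this
          -- adding `y` in front of a path of L''
          have hadd : ∀ (u : V) (q : List V) (L2 : List (List V)), D u y →
              L''.Perm ((u :: q) :: L2) → Cov D W ((y :: u :: q) :: L2) := by
            intro u q L2 hu e3
            obtain ⟨d1, d2, d3⟩ := hL''.perm e3
            refine ⟨?_, ?_, ?_⟩
            · intro p hp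
              rcases List.mem_cons.1 hp with h | h
              · rw [h]
                refine ⟨by simp, ?_⟩
                rw [List.isChain_cons_cons]
                exact ⟨hu, (d1 (u :: q) (by simp)).2⟩
              · exact d1 p (by simp [h])
            · simp only [List.flatten_cons, List.cons_append] at d2 ⊢
              refine List.nodup_cons.2 ⟨?_, d2⟩
              intro h
              have h' : y ∈ ((u :: q) :: L2).flatten := by
                simpa only [List.flatten_cons, List.cons_append] using h
              have := (d3 y).1 h'
              simp at this
            · intro z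
              have := d3 z
              simp only [List.flatten_cons, List.cons_append] at this ⊢
              rw [List.mem_cons, this, Finset.mem_erase]
              constructor
              · rintro (h | h)
                · rw [h]; exact hyW
                · exact h.2
              · intro h
                by_cases hz : z = y
                · exact Or.inl hz
                · exact Or.inr ⟨hz, h⟩
          by_cases hv'' : v ∈ ter L''
          · obtain ⟨q, L2, e3⟩ := exists_perm_of_mem_ter hv''
            have hvL2 : v ∉ ter L2 := by
              intro h
              have d2 := (hL''.perm e3).2.1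
              simp only [List.flatten_cons, List.cons_append, List.nodup_cons] at d2
              exact d2.1 (List.mem_append_right _ (mem_flatten_of_ter h))
            have hter'' : ter L'' = insert v (ter L2) := by
              rw [ter_perm e3, ter_cons]
            have h1 := hmin _ (hadd v q L2 hDv e3) (by
              rw [ter_cons, hter]
              refine Set.insert_subset_insert ?_
              intro z hz
              have hz' : z ∈ ter L'' := by rw [hter'']; exact Or.inr hz
              rcases hsub hz' with h | h
              · rw [h] at hz
                exact absurd hz hvL2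
              · exact h)
            rw [ter_cons, hter] at h1
            intro z hz
            rcases hz with h | h | h
            · rw [h]; exact hv''
            · have := h1 (Or.inr (Or.inl h))
              rcases this with h' | h'
              · exact absurd (h.symm.trans h') hxy
              · rw [hter'']; exact Or.inr h'
            · have := h1 (Or.inr (Or.inr h))
              rcases this with h' | h'
              · rw [h'] at h
                exact absurd (mem_flatten_of_ter h) hyL0
              · rw [hter'']; exact Or.inr h'
          · exfalso
            by_cases hx'' : x ∈ ter L''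
            · obtain ⟨q, L2, e3⟩ := exists_perm_of_mem_ter hx''
              have hxL2 : x ∉ ter L2 := by
                intro h
                have d2 := (hL''.perm e3).2.1
                simp only [List.flatten_cons, List.cons_append, List.nodup_cons] at d2
                exact d2.1 (List.mem_append_right _ (mem_flatten_of_ter h))
              have hter'' : ter L'' = insert x (ter L2) := by
                rw [ter_perm e3, ter_cons]
              have h1 := hmin _ (hadd x q L2 hD e3) (by
                rw [ter_cons, hter]
                refine Set.insert_subset_insert ?_
                intro z hz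
                have hz' : z ∈ ter L'' := by rw [hter'']; exact Or.inr hz
                rcases hsub hz' with h | h
                · rw [h] at hz'
                  exact absurd hz' hv''
                · exact h)
              have h2 := h1 hx
              rw [ter_cons] at h2
              rcases h2 with h | h
              · exact hxy h
              · exact hxL2 h
            · have hM : Cov D W ([y] :: L'') := by
                obtain ⟨d1, d2, d3⟩ := hL''
                refine ⟨?_, ?_, ?_⟩
                · intro p hp
                  rcases List.mem_cons.1 hp with h | h
                  · rw [h]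
                    exact ⟨by simp, List.isChain_singleton _⟩
                  · exact d1 p h
                · simp only [List.flatten_cons, List.cons_append, List.nil_append]
                  exact List.nodup_cons.2 ⟨hy'', d2⟩
                · intro z
                  simp only [List.flatten_cons, List.cons_append, List.nil_append]
                  rw [List.mem_cons, d3 z, Finset.mem_erase]
                  constructor
                  · rintro (h | h)
                    · rw [h]; exact hyW
                    · exact h.2
                  · intro h
                    by_cases hz : z = y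
                    · exact Or.inl hz
                    · exact Or.inr ⟨hz, h⟩
              have h1 := hmin _ hM (by
                rw [ter_cons, hter]
                refine Set.insert_subset_insert ?_
                intro z hz
                rcases hsub hz with h | h
                · rw [h] at hz
                  exact absurd hz hv''
                · exact h)
              have h2 := h1 hx
              rw [ter_cons] at h2
              rcases h2 with h | h
              · exact hxy h
              · exact hx'' h)
        refine ⟨s, hs1, ?_⟩
        intro p hp
        rcases List.mem_cons.1 hp with h | h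
        · obtain ⟨z, hz, hz'⟩ := hs2 (v :: q1) (by simp)
          exact ⟨z, hz, by rw [h]; exact List.mem_cons_of_mem _ hz'⟩
        · exact hs2 p (List.mem_cons_of_mem _ h)

/-- Every finite set has some cover. -/
theorem exists_cov (W : Finset V) : ∃ L, Cov D W L := by
  refine ⟨W.toList.map (fun v => [v]), ?_, ?_, ?_⟩
  · intro p hp
    obtain ⟨v, -, rfl⟩ := List.mem_map.1 hp
    exact ⟨by simp, List.isChain_singleton _⟩
  · have : (W.toList.map (fun v => [v])).flatten = W.toList := by
      induction W.toList with
      | nil => rfl
      | cons a l ih => simp [ih]
    rw [this]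
    exact W.nodup_toList
  · intro v
    simp

theorem length_le_card {L : List (List V)} (hL : L.flatten.Nodup) (s : Finset V)
    (h : ∀ p ∈ L, ∃ x ∈ s, x ∈ p) : L.length ≤ s.card := by
  classical
  have hd := (List.nodup_flatten.1 hL).2
  have h' : ∀ i : Fin L.length, ∃ x ∈ s, x ∈ L[i] := fun i => h _ (List.getElem_mem _)
  choose f hf1 hf2 using h'
  have hinj : Function.Injective f := by
    intro i j hij
    by_contra hne
    rcases lt_or_gt_of_ne hne with hlt | hlt
    · exact (List.pairwise_iff_getElem.1 hd i j i.2 j.2 hlt) (hf2 i) (by
        have := hf2 j
        rw [← hij] at this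
        exact this)
    · exact (List.pairwise_iff_getElem.1 hd j i j.2 i.2 hlt) (hf2 j) (by
        have := hf2 i
        rw [hij] at this
        exact this)
  have := Finset.card_le_card_of_injOn (s := (Finset.univ : Finset (Fin L.length))) (t := s) f
    (fun i _ => hf1 i) (fun i _ j _ hij => hinj hij)
  simpa using this

/-- **Gallai-Milgram theorem.** If every independent set of the finite digraph `D` has at most `a`
elements, then the vertices are covered by at most `a` pairwise disjoint directed paths. -/
theorem gallai_milgram [Fintype V] (D : V → V → Prop) (a : ℕ)
    (ha : ∀ s : Finset V, (∀ x ∈ s, ∀ y ∈ s, x ≠ y → ¬ D x y) → s.card ≤ a) :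
    ∃ L : List (List V), L.length ≤ a ∧ (∀ p ∈ L, p ≠ [] ∧ List.IsChain D p) ∧
      L.flatten.Nodup ∧ ∀ v, v ∈ L.flatten := by
  classical
  have hex : ∃ n, ∃ L, Cov D Finset.univ L ∧ (ter L).ncard = n := by
    obtain ⟨L, hL⟩ := exists_cov (D := D) (Finset.univ : Finset V)
    exact ⟨_, L, hL, rfl⟩
  obtain ⟨L, hL, hn⟩ := Nat.find_spec hex
  have hmin : ∀ L', Cov D Finset.univ L' → ter L' ⊆ ter L → ter L ⊆ ter L' := by
    intro L' hL' hsub
    have h1 : Nat.find hex ≤ (ter L').ncard := Nat.find_min' hex ⟨L', hL', rfl⟩
    have h2 := Set.eq_of_subset_of_ncard_le hsub (by rw [hn]; exact h1) (Set.toFinite _)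
    rw [h2]
  obtain ⟨s, hs1, hs2⟩ := key _ _ L rfl hL hmin
  have hlen : L.length ≤ a := (length_le_card hL.2.1 s hs2).trans (ha s hs1)
  refine ⟨L.map List.reverse, by simpa using hlen, ?_, ?_, ?_⟩
  · intro p hp
    obtain ⟨q, hq, rfl⟩ := List.mem_map.1 hp
    obtain ⟨h1, h2⟩ := hL.1 q hq
    exact ⟨by simpa using h1, List.isChain_reverse.2 h2⟩
  · have h := List.nodup_flatten.1 hL.2.1
    rw [List.nodup_flatten]
    refine ⟨?_, ?_⟩
    · intro p hp
      obtain ⟨q, hq, rfl⟩ := List.mem_map.1 hp
      exact List.nodup_reverse.2 (h.1 q hq)
    · rw [List.pairwise_map]
      refine h.2.imp ?_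
      intro p q hpq z hz1 hz2
      exact hpq (List.mem_reverse.1 hz1) (List.mem_reverse.1 hz2)
  · intro v
    have hv := (hL.2.2 v).2 (Finset.mem_univ v)
    obtain ⟨q, hq, hvq⟩ := List.mem_flatten.1 hv
    exact List.mem_flatten.2 ⟨q.reverse, List.mem_map.2 ⟨q, hq, rfl⟩, List.mem_reverse.2 hvq⟩

end Pool.Agent.GallaiMilgram
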